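import Pool.Agent.Y458.RH.Key

/-!
# Roy halfgraph-above degrees versus countable unions of submetrizable spaces
-/

set_option autoImplicit false

namespace Pool.Agent.Results.MP_b6d12e_lc.SigmaSubmetrizable

open Pool.Agent.H454R3.EDeg Pool.Agent.H454R3.Roy TopologicalSpace

universe u

/-! ### The definitions used in the statement -/

/-- The e-degree of `S` is Roy halfgraph-above by the very form of `S`. -/
def IsRoy (S : Set ℕ) : Prop :=
  ∃ (Y : Set ℕ) (f : ℕ → Tl), CEIn Y (HalfGraph f) ∧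
    (∃ g : ℕ →. ℕ, PartIn Y g ∧ ∀ n k, f n = Tl.fin k → ∃ b ∈ g n, k < b) ∧
    S = join (join Y Yᶜ) (HalfGraphPlus f)

/-- The space `Y` is a countable union of subsets which are submetrizable in the subspace
topology. -/
def SigmaSub (Y : Type*) [TopologicalSpace Y] : Prop :=
  ∃ P : ℕ → Set Y, (∀ y, ∃ k, y ∈ P k) ∧ ∀ k, Submetrizable (P k)

theorem sigmaSub_of_submetrizable (Y : Type*) [t : TopologicalSpace Y] (h : Submetrizable Y) :
    SigmaSub Y := by
  obtain ⟨t', ht', hmet⟩ := h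
  refine ⟨fun _ => Set.univ, fun y => ⟨0, trivial⟩, fun _ => ?_⟩
  refine ⟨t'.induced Subtype.val, induced_mono ht', ?_⟩
  exact @Topology.IsEmbedding.metrizableSpace _ _ (t'.induced Subtype.val) t' hmet Subtype.val
    (@Topology.IsEmbedding.subtypeVal _ t' _)

theorem isRoy_codeC (C : Set ℕ) (w : ℕ → Pt) : IsRoy (Y458.RH.codeC C w) := by
  obtain ⟨h1, g, hg, h2⟩ := Y458.RH.roy_parts w
  exact ⟨Y458.RH.Z C w, fun n => val (w n), Y458.RH.ceIn_join h1,
    ⟨g, Y458.RH.partIn_join hg, h2⟩, rfl⟩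

/-- The set read off from the positions where the second half of the parameter is stored. -/
def rd (S : Set ℕ) : Set ℕ := {n | 2 * (2 * (2 * (2 * n + 1) + 1)) ∈ S}

theorem rd_codeC (A C : Set ℕ) (w : ℕ → Pt) : rd (Y458.RH.codeC (join A C) w) = C := by
  ext n
  show 2 * (2 * (2 * (2 * n + 1) + 1)) ∈ Y458.RH.codeC (join A C) w ↔ n ∈ C
  exact join_even.trans (join_even.trans (join_odd.trans join_odd))

/-- the places where `A ⊕ Aᶜ` is stored -/
def pl (m : ℕ) : ℕ :=
  if m % 2 = 0 then 2 * (2 * (2 * (2 * (m / 2)) + 1)) else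
    2 * (2 * (2 * (2 * (m / 2)) + 1) + 1)

theorem pl_comp : Computable pl := by
  have h1 : Primrec fun m : ℕ => m / 2 := Primrec.nat_div.comp Primrec.id (Primrec.const 2)
  have hm : ∀ {f : ℕ → ℕ}, Primrec f → Primrec fun m => 2 * f m := fun hf =>
    Primrec.nat_mul.comp (Primrec.const 2) hf
  have hs : ∀ {f : ℕ → ℕ}, Primrec f → Primrec fun m => f m + 1 := fun hf =>
    Primrec.succ.comp hf
  refine Primrec.to_comp (Primrec.ite ?_ ?_ ?_)
  · exact Primrec.eq.comp (Primrec.nat_mod.comp Primrec.id (Primrec.const 2)) (Primrec.const 0)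
  · exact hm (hm (hs (hm (hm h1))))
  · exact hm (hs (hm (hs (hm (hm h1)))))

theorem pl_spec (A C : Set ℕ) (w : ℕ → Pt) :
    join A Aᶜ = {m | pl m ∈ Y458.RH.codeC (join A C) w} := by
  ext m
  rcases Nat.even_or_odd' m with ⟨n, rfl | rfl⟩
  · have e1 : pl (2 * n) = 2 * (2 * (2 * (2 * n) + 1)) := by
      unfold pl
      rw [if_pos (by omega)]
      congr 5
      omega
    show 2 * n ∈ join A Aᶜ ↔ pl (2 * n) ∈ Y458.RH.codeC (join A C) w
    rw [e1]
    exact join_even.trans (join_even.trans (join_even.trans (join_odd.trans join_even))).symm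
  · have e1 : pl (2 * n + 1) = 2 * (2 * (2 * (2 * n) + 1) + 1) := by
      unfold pl
      rw [if_neg (by omega)]
      have e2 : (2 * n + 1) / 2 = n := by omega
      rw [e2]
    show 2 * n + 1 ∈ join A Aᶜ ↔ pl (2 * n + 1) ∈ Y458.RH.codeC (join A C) w
    rw [e1]
    have h1 : (2 * (2 * n) + 1 ∈ (Y458.RH.Z (join A C) w)ᶜ) ↔ n ∈ Aᶜ :=
      not_congr (join_odd.trans join_even)
    exact join_odd.trans (join_even.trans (join_odd.trans h1)).symm

theorem main (Y : Type u) [TopologicalSpace Y] (hY : SigmaSub Y) (U : ℕ → Set Y)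
    (hU : IsTopologicalBasis (Set.range U)) (A : Set ℕ) (B : ℕ → Set ℕ) (F : Set (Set ℕ))
    (hF : Cardinal.mk F < Cardinal.continuum) :
    ∃ S : Set ℕ, IsRoy S ∧ ERed (join A Aᶜ) S ∧ (∀ y : Y, ¬ EEqv (Nbase U y) S) ∧
      (∀ (y : Y) (k : ℕ), ¬ EEqv (join (Nbase U y) (B k)) S) ∧ ∀ T ∈ F, ¬ ERed S T := by
  obtain ⟨P, hP, hPs⟩ := hY
  obtain ⟨C, hC⟩ := Y458.RH.exists_unread F hF rd
  obtain ⟨w, hw⟩ := Y458.RH.key2 (Y458.RH.codeC (join A C))
    (fun h1 h2 h3 => Y458.RH.codeC_near h1 h2 h3) (fun h1 h2 => Y458.RH.codeC_ne h1 h2) Y P hP hPs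
    U hU (fun b y => Nat.casesOn b (Nbase U y) fun k => join (Nbase U y) (B k)) (by
      intro b a
      rcases b with _ | k
      · exact ⟨a, fun y => Iff.rfl⟩
      · refine ⟨2 * a, fun y => ?_⟩
        show a ∈ Nbase U y ↔ 2 * a ∈ join (Nbase U y) (B k)
        exact join_even.symm)
  refine ⟨Y458.RH.codeC (join A C) w, isRoy_codeC _ w, ?_, fun y => hw y 0, fun y k => hw y (k + 1),
    ?_⟩
  · rw [pl_spec A C w]
    exact Y458.RH.ered_of_comp pl_comp _
  · intro T hT h
    exact hC T hT _ h (rd_codeC A C w)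

/-- **Theorem.** Let `Y` be a represented space which is a countable union of submetrizable
subspaces. For every `A ⊆ ℕ`, all sets `B 0, B 1, …` and every family `F` of fewer than continuum
many sets there is a Roy halfgraph-above e-degree which is above `A ⊕ Aᶜ`, which is neither a
`Y`-degree nor the join of a `Y`-degree with some `B k`, and which is not below any member of `F`.
In particular (second part) for every represented submetrizable space `Y` there is a Roy
halfgraph-above e-degree which is not a `Y`-degree. -/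
theorem result :
    (∀ (Y : Type u) [TopologicalSpace Y], SigmaSub Y → ∀ U : ℕ → Set Y,
      IsTopologicalBasis (Set.range U) → ∀ (A : Set ℕ) (B : ℕ → Set ℕ) (F : Set (Set ℕ)),
      Cardinal.mk F < Cardinal.continuum →
      ∃ S : Set ℕ, IsRoy S ∧ ERed (join A Aᶜ) S ∧ (∀ y : Y, ¬ EEqv (Nbase U y) S) ∧
        (∀ (y : Y) (k : ℕ), ¬ EEqv (join (Nbase U y) (B k)) S) ∧ ∀ T ∈ F, ¬ ERed S T) ∧
    ∀ (Y : Type u) [TopologicalSpace Y], Submetrizable Y → ∀ U : ℕ → Set Y,
      IsTopologicalBasis (Set.range U) →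
      ∃ S : Set ℕ, IsRoy S ∧ ∀ y : Y, ¬ EEqv (Nbase U y) S := by
  refine ⟨fun Y _ hY U hU A B F hF => main Y hY U hU A B F hF, fun Y _ hY U hU => ?_⟩
  obtain ⟨S, h1, _, h2, _⟩ := main Y (sigmaSub_of_submetrizable Y hY) U hU ∅ (fun _ => ∅) ∅ (by
    rw [Cardinal.mk_eq_zero]
    exact Cardinal.continuum_pos)
  exact ⟨S, h1, h2⟩

end Pool.Agent.Results.MP_b6d12e_lc.SigmaSubmetrizable
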